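import Mathlib
import Pool.Agent.W_MP_fd6526_gt.Final

set_option autoImplicit false

namespace Pool.Agent.W_MP_fd6526_h37

open MeasureTheory Set FourierTransform Metric SchwartzMap Pool.Agent.W_MP_fd6526_gt
open scoped ENNReal RealInnerProductSpace

variable {E : Type*} [NormedAddCommGroup E] [InnerProductSpace ℝ E] [FiniteDimensional ℝ E]
  [MeasurableSpace E] [BorelSpace E]

/-- The symmetrised value of the test function. -/
noncomputable def sym (φ : 𝓢(E, ℂ)) (z : E × ℝ) : ℝ :=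
  ((φ (z.2 • z.1)).re + (φ (-(z.2 • z.1))).re) / 2

theorem layer_pairing {q : ℝ} (hq : 0 < q) (hq1 : q < 1) {K : Set E} (hK : IsCompact K)
    (hc : Convex ℝ K) (hint : (interior K).Nonempty) (u₀ : sphere (0 : E) 1) (φ : 𝓢(E, ℂ))
    (him : ∀ ξ, (φ ξ).im = 0) (h0 : φ 0 = 0) :
    Integrable (sym φ) (kap q K) ∧
    ∫ x, (((∫⁻ y in K, layer q K x y).toReal : ℝ) : ℂ) * 𝓕 φ x
      = ((-∫ z, sym φ z ∂(kap q K) : ℝ) : ℂ) := by
  have hker := integrable_kernel hq hq1 hK hc hint u₀ (𝓕 φ)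
  have hpt : ∀ z : E × ℝ, ∫ x, ((1 - Real.cos (2 * Real.pi * (z.2 * ⟪x, z.1⟫)) : ℝ) : ℂ) * 𝓕 φ x
      = ((-sym φ z : ℝ) : ℂ) := by
    intro z
    rw [inner_integral, h0]
    have a : φ (z.2 • z.1) = (((φ (z.2 • z.1)).re : ℝ) : ℂ) :=
      Complex.ext (by simp) (by simp [him])
    have b : φ (-(z.2 • z.1)) = (((φ (-(z.2 • z.1))).re : ℝ) : ℂ) :=
      Complex.ext (by simp) (by simp [him])
    unfold sym
    push_cast
    rw [← a, ← b]
    ring
  have hswap := integral_integral_swap (f := fun (x : E) (z : E × ℝ) =>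
      ((1 - Real.cos (2 * Real.pi * (z.2 * ⟪x, z.1⟫)) : ℝ) : ℂ) * 𝓕 φ x)
    (μ := (volume : Measure E)) (ν := kap q K) hker
  have h1 : ∀ x : E, ∫ z : E × ℝ,
      ((1 - Real.cos (2 * Real.pi * (z.2 * ⟪x, z.1⟫)) : ℝ) : ℂ) * 𝓕 φ x ∂(kap q K)
      = (((∫⁻ y in K, layer q K x y).toReal : ℝ) : ℂ) * 𝓕 φ x := by
    intro x
    rw [integral_mul_const, integral_complex_ofReal, ← lintegral_kap hq hq1 hK,
      integral_eq_lintegral_of_nonneg_ae]
    · refine Filter.Eventually.of_forall fun z => ?_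
      have := Real.cos_le_one (2 * Real.pi * (z.2 * ⟪x, z.1⟫))
      simp only [Pi.zero_apply]
      linarith
    · exact (measurable_h x).aestronglyMeasurable
  simp only [h1] at hswap
  have hint2 := hker.integral_prod_right
  simp only [hpt] at hint2 hswap
  constructor
  · have h3 := hint2.re.neg
    refine h3.congr (Filter.Eventually.of_forall fun z => ?_)
    simp
  · rw [hswap, integral_complex_ofReal, integral_neg]

theorem nrm_pairing {q : ℝ} (hq : 0 < q) (hq1 : q < 1) {K : Set E} (hK : IsCompact K)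
    (hc : Convex ℝ K) (hint : (interior K).Nonempty) (u₀ : sphere (0 : E) 1) :
    ∃ A : ℝ, 0 < A ∧ ∀ φ : 𝓢(E, ℂ), (∀ ξ, (φ ξ).im = 0) → φ 0 = 0 →
      Integrable (sym φ) (kap q K) ∧
      ∫ x : E, ((nrm q (sphMeas' q K u₀) x : ℝ) : ℂ) * 𝓕 φ ((2 * Real.pi)⁻¹ • x)
        = ((-(A * ∫ z, sym φ z ∂(kap q K)) : ℝ) : ℂ) := by
  have hfin := sphMeas'_finite hq hq1 hK hc hint u₀
  set μ := sphMeas' q K u₀ with hμ
  have hpi : (0 : ℝ) < 2 * Real.pi := by positivity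
  have hscale : ∀ x : E, nrm q μ x = (2 * Real.pi) ^ q * nrm q μ ((2 * Real.pi)⁻¹ • x) := by
    intro x
    rw [← nrm_smul μ _ hpi.le, smul_smul, mul_inv_cancel₀ hpi.ne', one_smul]
  have hvol : 0 < (volume.real K)⁻¹ := by
    refine inv_pos.2 ?_
    rw [measureReal_def]
    refine ENNReal.toReal_pos ?_ hK.measure_lt_top.ne
    exact (hint.mono subset_rfl |> fun h =>
      (Measure.measure_pos_of_nonempty_interior volume h).ne')
  refine ⟨|(((2 * Real.pi)⁻¹) ^ Module.finrank ℝ E)⁻¹| * ((2 * Real.pi) ^ q *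
      (volume.real K)⁻¹), by positivity, ?_⟩
  intro φ him h0
  obtain ⟨hI, hcc⟩ := layer_pairing hq hq1 hK hc hint u₀ φ him h0
  refine ⟨hI, ?_⟩
  have hfun : (fun x : E => ((nrm q μ x : ℝ) : ℂ) * 𝓕 φ ((2 * Real.pi)⁻¹ • x))
      = fun x : E => (fun y : E => (((2 * Real.pi) ^ q : ℝ) : ℂ) *
        (((nrm q μ y : ℝ) : ℂ) * 𝓕 φ y)) ((2 * Real.pi)⁻¹ • x) := by
    funext x
    simp only
    rw [hscale x]
    push_cast
    ring
  rw [hfun]
  rw [Measure.integral_comp_smul (volume : Measure E) (fun y : E => (((2 * Real.pi) ^ q : ℝ) : ℂ) *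
      (((nrm q μ y : ℝ) : ℂ) * 𝓕 φ y)) ((2 * Real.pi)⁻¹), integral_const_mul]
  have h3 : ∫ x : E, ((nrm q μ x : ℝ) : ℂ) * 𝓕 φ x
      = (((volume.real K)⁻¹ * (-∫ z, sym φ z ∂(kap q K)) : ℝ) : ℂ) := by
    have : ∀ x : E, ((nrm q μ x : ℝ) : ℂ) * 𝓕 φ x = (((volume.real K)⁻¹ : ℝ) : ℂ) *
        ((((∫⁻ y in K, layer q K x y).toReal : ℝ) : ℂ) * 𝓕 φ x) := by
      intro x
      rw [hμ, nrm_sphMeas'_eq hq hq1 hK]
      push_cast
      ring
    simp_rw [this]
    rw [integral_const_mul, hcc]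
    push_cast
    ring
  rw [h3, Complex.real_smul]
  push_cast
  ring

/-- Lower bound for the pairing by the kap-measure of a product set on which the test function
is at least one. -/
theorem sym_lower {q : ℝ} {K : Set E} (φ : 𝓢(E, ℂ)) (hre : ∀ ξ, 0 ≤ (φ ξ).re)
    (hI : Integrable (sym φ) (kap q K)) (S : Set E) (T : Set ℝ) (hS : MeasurableSet S)
    (hT : MeasurableSet T) (hTpos : T ⊆ Ioi 0) (h1 : ∀ ξ ∈ S, ∀ r ∈ T, 1 ≤ (φ (r • ξ)).re) (a b : ℝ)
    (ha : ENNReal.ofReal a ≤ ∫⁻ ξ in S, spec K ξ)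
    (hb : ENNReal.ofReal b ≤ ∫⁻ r in T, ENNReal.ofReal (q * r ^ (-q - 1))) (ha0 : 0 ≤ a)
    (hb0 : 0 ≤ b) :
    a * b / 2 ≤ ∫ z, sym φ z ∂(kap q K) := by
  have hnn : ∀ z, 0 ≤ sym φ z := fun z => by
    unfold sym
    have a := hre (z.2 • z.1)
    have b := hre (-(z.2 • z.1))
    linarith
  have h2 : ENNReal.ofReal (a * b) ≤ kap q K (S ×ˢ T) := by
    rw [kap, Measure.prod_prod, withDensity_apply _ hS, withDensity_apply _ hT,
      Measure.restrict_restrict hT, inter_eq_left.2 hTpos, ENNReal.ofReal_mul ha0]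
    exact mul_le_mul' ha hb
  have h3 : ENNReal.ofReal (a * b / 2) ≤ ∫⁻ z, ENNReal.ofReal (sym φ z) ∂(kap q K) := by
    calc ENNReal.ofReal (a * b / 2) = ENNReal.ofReal (1 / 2) * ENNReal.ofReal (a * b) := by
          rw [← ENNReal.ofReal_mul (by norm_num)]
          congr 1
          ring
      _ ≤ ENNReal.ofReal (1 / 2) * kap q K (S ×ˢ T) := mul_le_mul_right h2 _
      _ = ∫⁻ z in S ×ˢ T, ENNReal.ofReal (1 / 2) ∂(kap q K) := by
          rw [setLIntegral_const]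
      _ ≤ ∫⁻ z in S ×ˢ T, ENNReal.ofReal (sym φ z) ∂(kap q K) := by
          refine setLIntegral_mono' (hS.prod hT) fun z hz => ENNReal.ofReal_le_ofReal ?_
          have c1 := h1 z.1 hz.1 z.2 hz.2
          have c2 := hre (-(z.2 • z.1))
          unfold sym
          linarith
      _ ≤ _ := setLIntegral_le_lintegral _ _
  rw [integral_eq_lintegral_of_nonneg_ae (Filter.Eventually.of_forall hnn)
    hI.aestronglyMeasurable]
  rw [← ENNReal.ofReal_le_iff_le_toReal]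
  · exact h3
  · have := hI.lintegral_lt_top
    exact this.ne

end Pool.Agent.W_MP_fd6526_h37
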