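import Mathlib
import Pool.Agent.W_MP_fd6526_gt.Defect

set_option autoImplicit false

namespace Pool.Agent.W_MP_fd6526_h37

open MeasureTheory Set FourierTransform Pool.Agent.W_MP_fd6526_gt
open scoped ENNReal RealInnerProductSpace

/-- The cube `[-1,1]^n`. -/
def cube (n : ℕ) : Set (EuclideanSpace ℝ (Fin n)) := {x | ∀ i, |x i| ≤ 1}

theorem convex_cube (n : ℕ) : Convex ℝ (cube n) := by
  intro x hx y hy a b ha hb hab i
  have h1 := hx i
  have h2 := hy i
  show |a * x i + b * y i| ≤ 1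
  calc |a * x i + b * y i| ≤ |a * x i| + |b * y i| := abs_add_le _ _
    _ = a * |x i| + b * |y i| := by rw [abs_mul, abs_mul, abs_of_nonneg ha, abs_of_nonneg hb]
    _ ≤ a * 1 + b * 1 := by gcongr
    _ = 1 := by linarith

theorem isCompact_box (n : ℕ) (R : ℝ) :
    IsCompact {x : EuclideanSpace ℝ (Fin n) | ∀ i, |x i| ≤ R} := by
  have h1 : IsCompact (Set.pi univ fun _ : Fin n => Icc (-R) R) :=
    isCompact_univ_pi fun _ => isCompact_Icc
  have h2 : {x : EuclideanSpace ℝ (Fin n) | ∀ i, |x i| ≤ R}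
      = (EuclideanSpace.equiv (Fin n) ℝ).toHomeomorph ⁻¹' (Set.pi univ fun _ : Fin n => Icc (-R) R) := by
    ext x
    simp only [mem_setOf_eq, mem_preimage, mem_pi, mem_univ, forall_const, mem_Icc, abs_le]
    rfl
  rw [h2]
  exact (EuclideanSpace.equiv (Fin n) ℝ).toHomeomorph.isCompact_preimage.2 h1

theorem isCompact_cube (n : ℕ) : IsCompact (cube n) := isCompact_box n 1

theorem interior_cube (n : ℕ) : (interior (cube n)).Nonempty := by
  refine ⟨0, mem_interior.2 ⟨{x | ∀ i, |x i| < 1}, fun x hx i => (hx i).le, ?_, by simp⟩⟩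
  have : {x : EuclideanSpace ℝ (Fin n) | ∀ i, |x i| < 1} = ⋂ i, {x | |x i| < 1} := by
    ext x; simp
  rw [this]
  refine isOpen_iInter_of_finite fun i => ?_
  exact isOpen_lt (by fun_prop) continuous_const

/-- One dimensional factor. -/
noncomputable def fac (t : ℝ) : ℂ :=
  ∫ x : ℝ, (Icc (-1 : ℝ) 1).indicator (fun x => Complex.exp (((-2 * Real.pi * (x * t) : ℝ) : ℂ)
    * Complex.I)) x

theorem fourier_cube (n : ℕ) (ξ : EuclideanSpace ℝ (Fin n)) :
    𝓕 (ind (cube n)) ξ = ∏ i, fac (ξ i) := by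
  rw [Real.fourier_eq']
  have h1 : ∀ v : EuclideanSpace ℝ (Fin n),
      Complex.exp (((-2 * Real.pi * ⟪v, ξ⟫ : ℝ) : ℂ) * Complex.I) • ind (cube n) v
      = (fun w : Fin n → ℝ => ∏ i, (Icc (-1 : ℝ) 1).indicator (fun x =>
        Complex.exp (((-2 * Real.pi * (x * ξ i) : ℝ) : ℂ) * Complex.I)) (w i)) (WithLp.ofLp v) := by
    intro v
    simp only
    by_cases hv : v ∈ cube n
    · rw [ind, indicator_of_mem hv, smul_eq_mul, mul_one]
      have h2 : ∀ i, (Icc (-1 : ℝ) 1).indicator (fun x =>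
        Complex.exp (((-2 * Real.pi * (x * ξ i) : ℝ) : ℂ) * Complex.I)) (v i)
          = Complex.exp (((-2 * Real.pi * (v i * ξ i) : ℝ) : ℂ) * Complex.I) := by
        intro i
        rw [indicator_of_mem]
        exact abs_le.1 (hv i)
      rw [Finset.prod_congr rfl fun i _ => h2 i, ← Complex.exp_sum]
      congr 1
      rw [← Finset.sum_mul]
      congr 1
      rw [← Complex.ofReal_sum]
      congr 1
      rw [← Finset.mul_sum, PiLp.inner_apply]
      congr 1
      refine Finset.sum_congr rfl fun i _ => ?_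
      simp [mul_comm]
    · rw [ind, indicator_of_notMem hv, smul_zero]
      have : ∃ i, ¬ |v i| ≤ 1 := by
        by_contra hcon
        push Not at hcon
        exact hv hcon
      obtain ⟨i, hi⟩ := this
      symm
      refine Finset.prod_eq_zero (Finset.mem_univ i) ?_
      rw [indicator_of_notMem]
      intro h
      exact hi (abs_le.2 h)
  simp_rw [h1]
  rw [(PiLp.volume_preserving_ofLp (Fin n)).integral_comp
    (MeasurableEquiv.toLp 2 (Fin n → ℝ)).symm.measurableEmbedding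
    (g := fun w : Fin n → ℝ => ∏ i, (Icc (-1 : ℝ) 1).indicator (fun x =>
        Complex.exp (((-2 * Real.pi * (x * ξ i) : ℝ) : ℂ) * Complex.I)) (w i))]
  rw [integral_fintype_prod_volume_eq_prod (fun i : Fin n => fun x : ℝ =>
    (Icc (-1 : ℝ) 1).indicator (fun x =>
        Complex.exp (((-2 * Real.pi * (x * ξ i) : ℝ) : ℂ) * Complex.I)) x)]
  rfl

theorem fac_eq_interval (t : ℝ) :
    fac t = ∫ x in (-1 : ℝ)..1, Complex.exp (((-2 * Real.pi * t : ℝ) * Complex.I) * x) := by
  rw [fac, integral_indicator measurableSet_Icc, intervalIntegral.integral_of_le (by norm_num),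
    integral_Icc_eq_integral_Ioc]
  refine integral_congr_ae (Filter.Eventually.of_forall fun x => ?_)
  simp only
  congr 1
  push_cast
  ring

theorem norm_fac_small {t : ℝ} (ht : |t| ≤ 1 / 8) : 1 ≤ ‖fac t‖ := by
  have h1 : (fac t).re = ∫ x in (-1 : ℝ)..1, Real.cos (2 * Real.pi * t * x) := by
    rw [fac_eq_interval]
    have hcont : Continuous fun x : ℝ => Complex.exp (((-2 * Real.pi * t : ℝ) * Complex.I) * x) := by
      fun_prop
    have := (Complex.reCLM.intervalIntegral_comp_comm (μ := volume) (a := (-1 : ℝ)) (b := 1)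
      (hcont.intervalIntegrable _ _))
    rw [Complex.reCLM_apply] at this
    rw [← this]
    refine intervalIntegral.integral_congr fun x _ => ?_
    simp only [Complex.reCLM_apply]
    have h2 : ((-2 * Real.pi * t : ℝ) * Complex.I) * (x : ℂ)
        = ((-2 * Real.pi * t * x : ℝ) : ℂ) * Complex.I := by push_cast; ring
    rw [h2, Complex.exp_ofReal_mul_I_re]
    rw [show -2 * Real.pi * t * x = -(2 * Real.pi * t * x) by ring, Real.cos_neg]
  have h2 : (1 : ℝ) ≤ (fac t).re := by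
    rw [h1]
    have h3 : ∫ x in (-1 : ℝ)..1, (1 / 2 : ℝ) ≤ ∫ x in (-1 : ℝ)..1, Real.cos (2 * Real.pi * t * x) := by
      refine intervalIntegral.integral_mono_on (by norm_num) (by simp) ?_ ?_
      · exact (by fun_prop : Continuous fun x : ℝ => Real.cos (2 * Real.pi * t * x)).intervalIntegrable _ _
      · intro x hx
        rw [← Real.cos_pi_div_three, ← Real.cos_abs (2 * Real.pi * t * x)]
        apply Real.cos_le_cos_of_nonneg_of_le_pi (abs_nonneg _)
        · have := Real.pi_pos; linarith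
        · have hx1 : |x| ≤ 1 := abs_le.2 hx
          rw [abs_mul, abs_mul, abs_of_pos (by positivity : (0 : ℝ) < 2 * Real.pi)]
          have hpi := Real.pi_pos
          calc 2 * Real.pi * |t| * |x| ≤ 2 * Real.pi * (1 / 8) * 1 := by gcongr
            _ ≤ Real.pi / 3 := by linarith
    have h4 : ∫ x in (-1 : ℝ)..1, (1 / 2 : ℝ) = 1 := by
      rw [intervalIntegral.integral_const]; norm_num
    linarith
  exact h2.trans ((le_abs_self _).trans (Complex.abs_re_le_norm _))

theorem norm_fac_large {t : ℝ} (ht : 0 < t) (hs : 1 / 2 ≤ |Real.sin (2 * Real.pi * t)|) :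
    1 / (8 * t) ≤ ‖fac t‖ := by
  have hpi := Real.pi_pos
  have hc : (((-2 * Real.pi * t : ℝ) : ℂ) * Complex.I) ≠ 0 := by
    apply mul_ne_zero _ Complex.I_ne_zero
    rw [Ne, Complex.ofReal_eq_zero]
    have : 0 < 2 * Real.pi * t := by positivity
    intro h0
    have h0' : -2 * Real.pi * t = -(2 * Real.pi * t) := by ring
    rw [h0'] at h0
    linarith
  rw [fac_eq_interval, integral_exp_mul_complex hc]
  have h1 : Complex.exp (((-2 * Real.pi * t : ℝ) : ℂ) * Complex.I * ((1 : ℝ) : ℂ))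
      - Complex.exp (((-2 * Real.pi * t : ℝ) : ℂ) * Complex.I * ((-1 : ℝ) : ℂ))
      = ((-2 * Real.sin (2 * Real.pi * t) : ℝ) : ℂ) * Complex.I := by
    have e1 : ((-2 * Real.pi * t : ℝ) : ℂ) * Complex.I * ((1 : ℝ) : ℂ)
        = (-(2 * Real.pi * t : ℝ) : ℂ) * Complex.I := by push_cast; ring
    have e2 : ((-2 * Real.pi * t : ℝ) : ℂ) * Complex.I * ((-1 : ℝ) : ℂ)
        = ((2 * Real.pi * t : ℝ) : ℂ) * Complex.I := by push_cast; ring
    rw [e1, e2, Complex.exp_mul_I, Complex.exp_mul_I, Complex.cos_neg, Complex.sin_neg]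
    push_cast
    ring
  rw [h1, norm_div, norm_mul, norm_mul, Complex.norm_I, Complex.norm_real, Complex.norm_real,
    mul_one, mul_one, Real.norm_eq_abs, Real.norm_eq_abs, abs_mul, abs_neg, abs_two]
  have h2 : |(-2 : ℝ) * Real.pi * t| = 2 * Real.pi * t := by
    rw [show (-2 : ℝ) * Real.pi * t = -(2 * Real.pi * t) by ring, abs_neg, abs_of_pos (by positivity)]
  rw [h2, div_le_div_iff₀ (by positivity) (by positivity)]
  have h4 : Real.pi ≤ 4 := Real.pi_le_four
  nlinarith [mul_pos hpi ht]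

/-- A set of large frequencies where the sine is bounded below. -/
def TT (N : ℕ) : Set ℝ := ⋃ j : Fin N, Icc ((N : ℝ) + j + 1 / 8) ((N : ℝ) + j + 3 / 8)

theorem measurableSet_TT (N : ℕ) : MeasurableSet (TT N) :=
  MeasurableSet.iUnion fun _ => measurableSet_Icc

theorem volume_TT (N : ℕ) : volume (TT N) = ENNReal.ofReal (N / 4) := by
  rw [TT, measure_iUnion]
  · have : ∀ j : Fin N, volume (Icc ((N : ℝ) + j + 1 / 8) ((N : ℝ) + j + 3 / 8))
        = ENNReal.ofReal (1 / 4) := by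
      intro j
      rw [Real.volume_Icc]
      congr 1
      ring
    simp_rw [this]
    rw [tsum_fintype, Finset.sum_const, Finset.card_univ, Fintype.card_fin, nsmul_eq_mul,
      ← ENNReal.ofReal_natCast, ← ENNReal.ofReal_mul (by positivity)]
    congr 1
    ring
  · intro i j hij
    rw [Function.onFun, Set.disjoint_left]
    rintro x ⟨h1, h2⟩ ⟨h3, h4⟩
    have hne : (i : ℕ) ≠ (j : ℕ) := fun h => hij (Fin.ext h)
    rcases lt_or_gt_of_ne hne with h | h
    · have : ((i : ℕ) : ℝ) + 1 ≤ ((j : ℕ) : ℝ) := by exact_mod_cast h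
      linarith
    · have : ((j : ℕ) : ℝ) + 1 ≤ ((i : ℕ) : ℝ) := by exact_mod_cast h
      linarith
  · exact fun _ => measurableSet_Icc

theorem TT_bounds {N : ℕ} {t : ℝ} (ht : t ∈ TT N) :
    (N : ℝ) ≤ t ∧ t ≤ 2 * N ∧ 1 / 2 ≤ |Real.sin (2 * Real.pi * t)| := by
  rw [TT, mem_iUnion] at ht
  obtain ⟨j, h1, h2⟩ := ht
  have hj0 : (0 : ℝ) ≤ ((j : ℕ) : ℝ) := by positivity
  have hj1 : ((j : ℕ) : ℝ) + 1 ≤ (N : ℝ) := by exact_mod_cast j.2
  refine ⟨by linarith, by linarith, ?_⟩
  set u : ℝ := t - ((N + (j : ℕ) : ℕ) : ℝ) with hu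
  have hu1 : 1 / 8 ≤ u := by rw [hu]; push_cast; linarith
  have hu2 : u ≤ 3 / 8 := by rw [hu]; push_cast; linarith
  have ht' : 2 * Real.pi * t = 2 * Real.pi * u + ((N + (j : ℕ) : ℕ) : ℝ) * (2 * Real.pi) := by
    rw [hu]; ring
  rw [ht', Real.sin_add_nat_mul_two_pi]
  have hpi := Real.pi_pos
  have h5 : (1 : ℝ) / 2 ≤ Real.sin (2 * Real.pi * u) := by
    rw [show 2 * Real.pi * u = Real.pi / 2 - (Real.pi / 2 - 2 * Real.pi * u) by ring,
      Real.sin_pi_div_two_sub, ← Real.cos_pi_div_three, ← Real.cos_abs (Real.pi / 2 - _)]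
    apply Real.cos_le_cos_of_nonneg_of_le_pi (abs_nonneg _)
    · linarith
    · rw [abs_le]
      constructor <;> nlinarith
  exact h5.trans (le_abs_self _)

/-- Box of frequencies. -/
def SS (n : ℕ) (i₀ : Fin n) (N : ℕ) : Set (EuclideanSpace ℝ (Fin n)) :=
  {ξ | ξ i₀ ∈ TT N ∧ ∀ i, i ≠ i₀ → |ξ i| ≤ 1 / 8}

theorem SS_eq (n : ℕ) (i₀ : Fin n) (N : ℕ) : SS n i₀ N = WithLp.ofLp ⁻¹'
    (Set.pi univ fun i : Fin n => if i = i₀ then TT N else Icc (-(1 / 8)) (1 / 8)) := by
  ext ξ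
  simp only [SS, mem_setOf_eq, mem_preimage, mem_pi, mem_univ, forall_const]
  constructor
  · rintro ⟨h1, h2⟩ i
    by_cases hi : i = i₀
    · rw [if_pos hi, hi]; exact h1
    · rw [if_neg hi]; exact abs_le.1 (h2 i hi)
  · intro h
    refine ⟨?_, fun i hi => ?_⟩
    · have := h i₀
      rwa [if_pos rfl] at this
    · have := h i
      rw [if_neg hi] at this
      exact abs_le.2 this

theorem measurableSet_SS (n : ℕ) (i₀ : Fin n) (N : ℕ) : MeasurableSet (SS n i₀ N) := by
  rw [SS_eq]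
  refine (MeasurableSet.univ_pi fun i => ?_).preimage
    (PiLp.volume_preserving_ofLp (Fin n)).measurable
  by_cases hi : i = i₀
  · rw [if_pos hi]; exact measurableSet_TT N
  · rw [if_neg hi]; exact measurableSet_Icc

theorem volume_box {n : ℕ} (i₀ : Fin n) (A B : Set ℝ) (hA : MeasurableSet A) (hB : MeasurableSet B) :
    volume (WithLp.ofLp ⁻¹' (Set.pi univ fun i : Fin n => if i = i₀ then A else B) :
      Set (EuclideanSpace ℝ (Fin n))) = volume A * volume B ^ (n - 1) := by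
  rw [(PiLp.volume_preserving_ofLp (Fin n)).measure_preimage]
  · rw [volume_pi_pi, ← Finset.mul_prod_erase _ _ (Finset.mem_univ i₀), if_pos rfl]
    congr 1
    rw [Finset.prod_congr rfl (g := fun _ => volume B)]
    · rw [Finset.prod_const, Finset.card_erase_of_mem (Finset.mem_univ i₀), Finset.card_univ,
        Fintype.card_fin]
    · intro i hi
      rw [if_neg (Finset.ne_of_mem_erase hi)]
  · refine (MeasurableSet.univ_pi fun i => ?_).nullMeasurableSet
    by_cases hi : i = i₀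
    · rw [if_pos hi]; exact hA
    · rw [if_neg hi]; exact hB

theorem spec_lower {n : ℕ} (i₀ : Fin n) {N : ℕ} (hN : 0 < N) {ξ : EuclideanSpace ℝ (Fin n)}
    (hξ : ξ ∈ SS n i₀ N) : ENNReal.ofReal (1 / (16 * N) ^ 2) ≤ spec (cube n) ξ := by
  have hN' : (0 : ℝ) < N := by exact_mod_cast hN
  obtain ⟨h1, h2, h3⟩ := TT_bounds hξ.1
  have h4 : 1 / (16 * N) ≤ ‖fac (ξ i₀)‖ := by
    refine le_trans ?_ (norm_fac_large (lt_of_lt_of_le hN' h1) h3)
    have : 0 < ξ i₀ := lt_of_lt_of_le hN' h1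
    apply one_div_le_one_div_of_le (by positivity)
    linarith
  have h5 : 1 / (16 * N) ≤ ‖𝓕 (ind (cube n)) ξ‖ := by
    rw [fourier_cube, norm_prod, ← Finset.mul_prod_erase _ _ (Finset.mem_univ i₀)]
    have h6 : (1 : ℝ) ≤ ∏ i ∈ Finset.univ.erase i₀, ‖fac (ξ i)‖ := by
      calc (1 : ℝ) = ∏ _i ∈ Finset.univ.erase i₀, (1 : ℝ) := by rw [Finset.prod_const_one]
        _ ≤ _ := Finset.prod_le_prod (fun _ _ => zero_le_one) fun i hi =>
          norm_fac_small (hξ.2 i (Finset.ne_of_mem_erase hi))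
    calc 1 / (16 * (N : ℝ)) ≤ ‖fac (ξ i₀)‖ * 1 := by rw [mul_one]; exact h4
      _ ≤ _ := by gcongr
  rw [spec, ← ofReal_norm, ← ENNReal.ofReal_pow (norm_nonneg _)]
  apply ENNReal.ofReal_le_ofReal
  calc 1 / (16 * (N : ℝ)) ^ 2 = (1 / (16 * N)) ^ 2 := by rw [div_pow, one_pow]
    _ ≤ _ := by gcongr

theorem spec_integral_lower {n : ℕ} (i₀ : Fin n) {N : ℕ} (hN : 0 < N) :
    ENNReal.ofReal ((1 / 1024) * (1 / 4) ^ (n - 1) / N)
      ≤ ∫⁻ ξ in SS n i₀ N, spec (cube n) ξ := by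
  have hN' : (0 : ℝ) < N := by exact_mod_cast hN
  calc ENNReal.ofReal ((1 / 1024) * (1 / 4) ^ (n - 1) / N)
      = ENNReal.ofReal (1 / (16 * N) ^ 2) * volume (SS n i₀ N) := by
        rw [SS_eq, volume_box i₀ _ _ (measurableSet_TT N) measurableSet_Icc, volume_TT,
          Real.volume_Icc, ← ENNReal.ofReal_pow (by norm_num), ← ENNReal.ofReal_mul (by positivity),
          ← ENNReal.ofReal_mul (by positivity)]
        congr 1
        rw [show (1 : ℝ) / 8 - -(1 / 8) = 1 / 4 by norm_num]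
        field_simp
        ring
    _ = ∫⁻ _ξ in SS n i₀ N, ENNReal.ofReal (1 / (16 * N) ^ 2) := by rw [setLIntegral_const]
    _ ≤ _ := setLIntegral_mono' (measurableSet_SS n i₀ N) fun ξ hξ => spec_lower i₀ hN hξ

end Pool.Agent.W_MP_fd6526_h37
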