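import Mathlib
import Pool.Agent.W_MP_fd6526_h37.Cube

set_option autoImplicit false

namespace Pool.Agent.W_MP_fd6526_h37

open MeasureTheory Set FourierTransform SchwartzMap
open scoped ENNReal RealInnerProductSpace

/-- Bump equal to one on `[1,4]`, supported in `(1/2, 9/2)`. -/
noncomputable def bump1 : ContDiffBump (5 / 2 : ℝ) := ⟨3 / 2, 2, by norm_num, by norm_num⟩

/-- Bump equal to one on `[-1,1]`, supported in `(-2,2)`. -/
noncomputable def bump0 : ContDiffBump (0 : ℝ) := ⟨1, 2, by norm_num, by norm_num⟩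

/-- The test function. -/
noncomputable def tf {n : ℕ} (i₀ : Fin n) (N : ℕ) (η : EuclideanSpace ℝ (Fin n)) : ℝ :=
  bump1 (η i₀) * ∏ i ∈ Finset.univ.erase i₀, bump0 (N * η i)

theorem contDiff_tf {n : ℕ} (i₀ : Fin n) (N : ℕ) : ContDiff ℝ ((⊤ : ℕ∞) : WithTop ℕ∞) (tf i₀ N) := by
  unfold tf
  have hc : ∀ i : Fin n, ContDiff ℝ ((⊤ : ℕ∞) : WithTop ℕ∞)
      (fun η : EuclideanSpace ℝ (Fin n) => η i) := fun i => by fun_prop
  refine (bump1.contDiff.comp (hc i₀)).mul (contDiff_prod fun i _ => ?_)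
  exact bump0.contDiff.comp (contDiff_const.mul (hc i))

theorem tf_nonneg {n : ℕ} (i₀ : Fin n) (N : ℕ) (η : EuclideanSpace ℝ (Fin n)) : 0 ≤ tf i₀ N η :=
  mul_nonneg bump1.nonneg (Finset.prod_nonneg fun _ _ => bump0.nonneg)

theorem tf_le_one {n : ℕ} (i₀ : Fin n) (N : ℕ) (η : EuclideanSpace ℝ (Fin n)) : tf i₀ N η ≤ 1 := by
  unfold tf
  have h1 : ∏ i ∈ Finset.univ.erase i₀, bump0 (N * η i) ≤ 1 :=
    Finset.prod_le_one (fun _ _ => bump0.nonneg) fun _ _ => bump0.le_one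
  exact mul_le_one₀ bump1.le_one (Finset.prod_nonneg fun _ _ => bump0.nonneg) h1

/-- The region containing the support. -/
def DD (n : ℕ) (i₀ : Fin n) (N : ℕ) : Set (EuclideanSpace ℝ (Fin n)) :=
  {η | η i₀ ∈ Icc (1 / 2 : ℝ) (9 / 2) ∧ ∀ i, i ≠ i₀ → |η i| ≤ 2 / N}

theorem tf_support {n : ℕ} (i₀ : Fin n) {N : ℕ} (hN : 0 < N) {η : EuclideanSpace ℝ (Fin n)}
    (h : tf i₀ N η ≠ 0) : η ∈ DD n i₀ N := by
  have hN' : (0 : ℝ) < N := by exact_mod_cast hN
  unfold tf at h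
  have h1 : bump1 (η i₀) ≠ 0 := left_ne_zero_of_mul h
  have h2 : ∏ i ∈ Finset.univ.erase i₀, bump0 (N * η i) ≠ 0 := right_ne_zero_of_mul h
  constructor
  · have : η i₀ ∈ Function.support bump1 := h1
    rw [bump1.support_eq, Real.ball_eq_Ioo] at this
    have a1 : (5 / 2 : ℝ) - bump1.rOut = 1 / 2 := by
      show (5 / 2 : ℝ) - 2 = 1 / 2
      norm_num
    have a2 : (5 / 2 : ℝ) + bump1.rOut = 9 / 2 := by
      show (5 / 2 : ℝ) + 2 = 9 / 2
      norm_num
    rw [a1, a2] at this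
    exact ⟨this.1.le, this.2.le⟩
  · intro i hi
    have h3 := (Finset.prod_ne_zero_iff.1 h2) i (Finset.mem_erase.2 ⟨hi, Finset.mem_univ i⟩)
    have : (N * η i : ℝ) ∈ Function.support bump0 := h3
    rw [bump0.support_eq, mem_ball_zero_iff, Real.norm_eq_abs, abs_mul, abs_of_pos hN'] at this
    have a1 : bump0.rOut = 2 := rfl
    rw [a1] at this
    rw [le_div_iff₀ hN']
    linarith

theorem tf_eq_one {n : ℕ} (i₀ : Fin n) {N : ℕ} {η : EuclideanSpace ℝ (Fin n)}
    (h1 : η i₀ ∈ Icc (1 : ℝ) 4) (h2 : ∀ i, i ≠ i₀ → |(N : ℝ) * η i| ≤ 1) : tf i₀ N η = 1 := by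
  unfold tf
  rw [bump1.one_of_mem_closedBall, Finset.prod_eq_one, one_mul]
  · intro i hi
    apply bump0.one_of_mem_closedBall
    rw [mem_closedBall_zero_iff, Real.norm_eq_abs]
    exact h2 i (Finset.ne_of_mem_erase hi)
  · rw [Metric.mem_closedBall, Real.dist_eq, abs_le]
    have a1 : bump1.rIn = 3 / 2 := rfl
    rw [a1]
    constructor <;> linarith [h1.1, h1.2]

theorem compact_support_tf {n : ℕ} (i₀ : Fin n) {N : ℕ} (hN : 0 < N) :
    HasCompactSupport (fun η : EuclideanSpace ℝ (Fin n) => ((tf i₀ N η : ℝ) : ℂ)) := by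
  have hN' : (1 : ℝ) ≤ N := by exact_mod_cast hN
  refine HasCompactSupport.intro (isCompact_box n (9 / 2)) fun η hη => ?_
  by_contra hcon
  have h1 : tf i₀ N η ≠ 0 := by
    intro h; exact hcon (by rw [h]; simp)
  have h2 := tf_support i₀ hN h1
  apply hη
  intro i
  by_cases hi : i = i₀
  · rw [hi, abs_le]
    constructor <;> linarith [h2.1.1, h2.1.2]
  · refine (h2.2 i hi).trans ?_
    rw [div_le_iff₀ (by linarith)]
    linarith

/-- The Schwartz test function. -/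
noncomputable def phi {n : ℕ} (i₀ : Fin n) {N : ℕ} (hN : 0 < N) : 𝓢(EuclideanSpace ℝ (Fin n), ℂ) :=
  (compact_support_tf i₀ hN).toSchwartzMap (Complex.ofRealCLM.contDiff.comp (contDiff_tf i₀ N))

theorem phi_apply {n : ℕ} (i₀ : Fin n) {N : ℕ} (hN : 0 < N) (η : EuclideanSpace ℝ (Fin n)) :
    phi i₀ hN η = ((tf i₀ N η : ℝ) : ℂ) := rfl

theorem phi_compact {n : ℕ} (i₀ : Fin n) {N : ℕ} (hN : 0 < N) :
    HasCompactSupport (phi i₀ hN) := compact_support_tf i₀ hN

theorem phi_tsupport {n : ℕ} (i₀ : Fin n) {N : ℕ} (hN : 0 < N) :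
    (0 : EuclideanSpace ℝ (Fin n)) ∉ tsupport (phi i₀ hN) := by
  have h1 : tsupport (phi i₀ hN) ⊆ {η | (1 / 2 : ℝ) ≤ η i₀} := by
    refine closure_minimal ?_ ?_
    · intro η hη
      have h2 : tf i₀ N η ≠ 0 := by
        intro h
        apply hη
        rw [phi_apply, h]
        simp
      exact (tf_support i₀ hN h2).1.1
    · exact isClosed_le continuous_const (by fun_prop)
  intro h
  have := h1 h
  simp only [mem_setOf_eq, PiLp.zero_apply] at this
  norm_num at this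

theorem DD_eq (n : ℕ) (i₀ : Fin n) (N : ℕ) : DD n i₀ N = WithLp.ofLp ⁻¹'
    (Set.pi univ fun i : Fin n => if i = i₀ then Icc (1 / 2 : ℝ) (9 / 2) else
      Icc (-(2 / N : ℝ)) (2 / N)) := by
  ext ξ
  simp only [DD, mem_setOf_eq, mem_preimage, mem_pi, mem_univ, forall_const]
  constructor
  · rintro ⟨h1, h2⟩ i
    by_cases hi : i = i₀
    · rw [if_pos hi, hi]; exact h1
    · rw [if_neg hi]; exact abs_le.1 (h2 i hi)
  · intro h
    refine ⟨?_, fun i hi => ?_⟩
    · have := h i₀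
      rwa [if_pos rfl] at this
    · have := h i
      rw [if_neg hi] at this
      exact abs_le.2 this

theorem measurableSet_DD (n : ℕ) (i₀ : Fin n) (N : ℕ) : MeasurableSet (DD n i₀ N) := by
  rw [DD_eq]
  refine (MeasurableSet.univ_pi fun i => ?_).preimage
    (PiLp.volume_preserving_ofLp (Fin n)).measurable
  by_cases hi : i = i₀
  · rw [if_pos hi]; exact measurableSet_Icc
  · rw [if_neg hi]; exact measurableSet_Icc

theorem volume_DD (n : ℕ) (i₀ : Fin n) (N : ℕ) :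
    volume (DD n i₀ N) = ENNReal.ofReal (4 * (4 / N) ^ (n - 1)) := by
  rw [DD_eq, volume_box i₀ _ _ measurableSet_Icc measurableSet_Icc, Real.volume_Icc,
    Real.volume_Icc, ← ENNReal.ofReal_pow (by
      have : (0 : ℝ) ≤ 2 / N := by positivity
      linarith), ← ENNReal.ofReal_mul (by norm_num)]
  congr 1
  rw [show (9 : ℝ) / 2 - 1 / 2 = 4 by norm_num, show (2 : ℝ) / N - -(2 / N) = 4 / N by ring]

/-- On the product of the frequency box and the radii the test function is one. -/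
theorem tf_one_on {n : ℕ} (i₀ : Fin n) {N : ℕ} (hN : 0 < N) {ξ : EuclideanSpace ℝ (Fin n)}
    (hξ : ξ ∈ SS n i₀ N) {r : ℝ} (hr : r ∈ Icc (1 / N : ℝ) (2 / N)) :
    tf i₀ N (r • ξ) = 1 := by
  have hN' : (0 : ℝ) < N := by exact_mod_cast hN
  obtain ⟨h1, h2, -⟩ := TT_bounds hξ.1
  have hr0 : 0 < r := lt_of_lt_of_le (by positivity) hr.1
  have hr1 : 1 ≤ r * N := by
    have := hr.1
    rw [div_le_iff₀ hN'] at this
    exact this
  have hr2 : r * N ≤ 2 := by
    have := hr.2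
    rw [le_div_iff₀ hN'] at this
    exact this
  apply tf_eq_one
  · show r * ξ i₀ ∈ Icc (1 : ℝ) 4
    constructor
    · nlinarith
    · nlinarith
  · intro i hi
    show |(N : ℝ) * (r * ξ i)| ≤ 1
    rw [abs_mul, abs_mul, abs_of_pos hN', abs_of_pos hr0]
    have h3 := hξ.2 i hi
    have h4 := abs_nonneg (ξ i)
    nlinarith

theorem radii_lower {q : ℝ} (hq : 0 < q) {N : ℕ} (hN : 0 < N) :
    ENNReal.ofReal (q * (2 / N) ^ (-q - 1) / N)
      ≤ ∫⁻ r in Icc (1 / N : ℝ) (2 / N), ENNReal.ofReal (q * r ^ (-q - 1)) := by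
  have hN' : (0 : ℝ) < N := by exact_mod_cast hN
  calc ENNReal.ofReal (q * (2 / N) ^ (-q - 1) / N)
      = ENNReal.ofReal (q * (2 / N) ^ (-q - 1)) * volume (Icc (1 / N : ℝ) (2 / N)) := by
        rw [Real.volume_Icc, ← ENNReal.ofReal_mul (by positivity)]
        congr 1
        ring
    _ = ∫⁻ _r in Icc (1 / N : ℝ) (2 / N), ENNReal.ofReal (q * (2 / N) ^ (-q - 1)) := by
        rw [setLIntegral_const]
    _ ≤ _ := by
        refine setLIntegral_mono' measurableSet_Icc fun r hr => ENNReal.ofReal_le_ofReal ?_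
        have hr0 : 0 < r := lt_of_lt_of_le (by positivity) hr.1
        refine mul_le_mul_of_nonneg_left ?_ hq.le
        exact Real.rpow_le_rpow_of_nonpos hr0 hr.2 (by linarith)

end Pool.Agent.W_MP_fd6526_h37
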