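import Mathlib

set_option autoImplicit false

namespace Pool.Agent.W_MP_fd6526_h37

open MeasureTheory Set
open scoped ENNReal

variable {E : Type*} [NormedAddCommGroup E] [NormedSpace ℝ E] [FiniteDimensional ℝ E]
  [MeasurableSpace E] [BorelSpace E]

/-- Dyadic bound of a function whose superlevel sets are controlled by dilates of a set. -/
theorem dyadic_bound (μ : Measure E) [μ.IsAddHaarMeasure] (hn : 2 ≤ Module.finrank ℝ E)
    (L D : Set E) (hD : MeasurableSet D) (G : E → ℝ≥0∞) (R s : ℝ) (hR : 0 < R) (hs : 0 < s)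
    (h : ∀ η ∈ D, ∀ t : ℝ, 0 < t → ENNReal.ofReal (R * t) < G η → t • η ∈ L) :
    ∫⁻ η in D, G η ∂μ ≤ ENNReal.ofReal (R * s) * μ D +
      ENNReal.ofReal (4 * R * s * (s ^ Module.finrank ℝ E)⁻¹) * μ L := by
  set n := Module.finrank ℝ E with hnd
  set H : ℕ → Set E := fun k => toMeasurable μ ((fun η : E => (2 ^ k * s) • η) ⁻¹' L) with hH
  have hpt : ∀ η ∈ D, G η ≤ ENNReal.ofReal (R * s) +
      ∑' k : ℕ, (H k).indicator (fun _ => ENNReal.ofReal (R * (2 ^ (k + 1) * s))) η := by
    intro η hη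
    by_cases h0 : G η ≤ ENNReal.ofReal (R * s)
    · exact h0.trans le_self_add
    push Not at h0
    have hmem : ∀ k : ℕ, ENNReal.ofReal (R * (2 ^ k * s)) < G η → η ∈ H k := by
      intro k hk
      exact subset_toMeasurable μ _ (h η hη (2 ^ k * s) (by positivity) hk)
    by_cases hex : ∃ k : ℕ, G η ≤ ENNReal.ofReal (R * (2 ^ (k + 1) * s))
    · classical
      obtain ⟨hk1, hk2⟩ := And.intro (Nat.find_spec hex) (fun m => Nat.find_min (H := hex) (m := m))
      set k := Nat.find hex with hkd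
      have hlow : ENNReal.ofReal (R * (2 ^ k * s)) < G η := by
        rcases Nat.eq_zero_or_pos k with hk0 | hkpos
        · rw [hk0]; simpa using h0
        · obtain ⟨j, hj⟩ : ∃ j, k = j + 1 := ⟨k - 1, by omega⟩
          have := hk2 j (by omega)
          push Not at this
          rw [hj]; exact this
      refine le_trans ?_ (le_add_left (ENNReal.le_tsum k))
      rw [indicator_of_mem (hmem k hlow)]
      exact hk1
    · push Not at hex
      have hall : ∀ k : ℕ, ENNReal.ofReal (R * s) ≤
          (H k).indicator (fun _ => ENNReal.ofReal (R * (2 ^ (k + 1) * s))) η := by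
        intro k
        have hlow : ENNReal.ofReal (R * (2 ^ k * s)) < G η := by
          rcases Nat.eq_zero_or_pos k with hk0 | hkpos
          · rw [hk0]; simpa using h0
          · obtain ⟨j, hj⟩ : ∃ j, k = j + 1 := ⟨k - 1, by omega⟩
            rw [hj]; exact hex j
        rw [indicator_of_mem (hmem k hlow)]
        apply ENNReal.ofReal_le_ofReal
        apply mul_le_mul_of_nonneg_left _ hR.le
        have : (1 : ℝ) ≤ 2 ^ (k + 1) := one_le_pow₀ (by norm_num)
        nlinarith
      have htop : ∑' k : ℕ, (H k).indicator (fun _ => ENNReal.ofReal (R * (2 ^ (k + 1) * s))) η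
          = ∞ := by
        rw [eq_top_iff]
        calc (∞ : ℝ≥0∞) = ∑' _k : ℕ, ENNReal.ofReal (R * s) := by
              rw [ENNReal.tsum_const_eq_top_of_ne_zero]
              have : 0 < R * s := by positivity
              simpa using this
          _ ≤ _ := ENNReal.tsum_le_tsum hall
      rw [htop]
      simp
  have hHm : ∀ k, MeasurableSet (H k) := fun k => measurableSet_toMeasurable _ _
  have hHv : ∀ k, μ (H k) = ENNReal.ofReal (((2 ^ k * s) ^ n)⁻¹) * μ L := by
    intro k
    rw [hH]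
    simp only
    rw [measure_toMeasurable]
    have hne : (2 ^ k * s : ℝ) ≠ 0 := by positivity
    have := Measure.addHaar_preimage_smul μ hne L
    rw [this, abs_of_nonneg (by positivity)]
  calc ∫⁻ η in D, G η ∂μ ≤ ∫⁻ η in D, (ENNReal.ofReal (R * s) +
      ∑' k : ℕ, (H k).indicator (fun _ => ENNReal.ofReal (R * (2 ^ (k + 1) * s))) η) ∂μ :=
        setLIntegral_mono' hD hpt
    _ = ENNReal.ofReal (R * s) * μ D + ∑' k : ℕ, ∫⁻ η in D,
        (H k).indicator (fun _ => ENNReal.ofReal (R * (2 ^ (k + 1) * s))) η ∂μ := by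
        rw [lintegral_add_left measurable_const, setLIntegral_const, lintegral_tsum]
        intro k
        exact (measurable_const.indicator (hHm k)).aemeasurable
    _ ≤ ENNReal.ofReal (R * s) * μ D + ∑' k : ℕ,
        ENNReal.ofReal (R * (2 ^ (k + 1) * s)) * μ (H k) := by
        gcongr with k
        calc ∫⁻ η in D, (H k).indicator (fun _ => ENNReal.ofReal (R * (2 ^ (k + 1) * s))) η ∂μ
            ≤ ∫⁻ η, (H k).indicator (fun _ => ENNReal.ofReal (R * (2 ^ (k + 1) * s))) η ∂μ :=
              setLIntegral_le_lintegral _ _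
          _ = _ := by rw [lintegral_indicator (hHm k), setLIntegral_const]
    _ ≤ ENNReal.ofReal (R * s) * μ D + ∑' k : ℕ,
        ENNReal.ofReal (2 * R * s * (s ^ n)⁻¹ * (1 / 2) ^ k) * μ L := by
        refine add_le_add le_rfl (ENNReal.tsum_le_tsum fun k => ?_)
        rw [hHv, ← mul_assoc, ← ENNReal.ofReal_mul (by positivity)]
        refine mul_le_mul_left (ENNReal.ofReal_le_ofReal ?_) _
        have h2 : ((2 : ℝ) ^ k) * ((2 ^ k) ^ n)⁻¹ ≤ (1 / 2) ^ k := by
          obtain ⟨j, hj⟩ : ∃ j, n = j + 2 := ⟨n - 2, by omega⟩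
          rw [hj, pow_add, one_div, inv_pow]
          have h3 : (1 : ℝ) ≤ (2 ^ k) ^ j := one_le_pow₀ (one_le_pow₀ (by norm_num))
          have h4 : (0 : ℝ) < 2 ^ k := by positivity
          have h5 : ((2 ^ k : ℝ) ^ j * (2 ^ k) ^ 2)⁻¹ ≤ ((2 ^ k) ^ 2)⁻¹ := by
            apply inv_anti₀ (by positivity)
            nlinarith [sq_nonneg ((2 : ℝ) ^ k), pow_pos h4 2]
          calc (2 : ℝ) ^ k * ((2 ^ k) ^ j * (2 ^ k) ^ 2)⁻¹ ≤ 2 ^ k * ((2 ^ k) ^ 2)⁻¹ := by gcongr
            _ = (2 ^ k)⁻¹ := by field_simp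
        calc R * (2 ^ (k + 1) * s) * ((2 ^ k * s) ^ n)⁻¹
            = 2 * R * s * (s ^ n)⁻¹ * (2 ^ k * ((2 ^ k) ^ n)⁻¹) := by
              rw [mul_pow, mul_inv, pow_succ]
              ring
          _ ≤ _ := by gcongr
    _ = ENNReal.ofReal (R * s) * μ D +
      ENNReal.ofReal (4 * R * s * (s ^ n)⁻¹) * μ L := by
        congr 1
        rw [ENNReal.tsum_mul_right]
        congr 1
        rw [← ENNReal.ofReal_tsum_of_nonneg]
        · congr 1
          rw [tsum_mul_left, tsum_geometric_two]
          ring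
        · intro k; positivity
        · exact (summable_geometric_two).mul_left _

end Pool.Agent.W_MP_fd6526_h37
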